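import Mathlib
import Pool.Agent.W798.SP.Stm

/-!
# Rich lines of a Cartesian product: elementary proof
-/

set_option autoImplicit false
set_option maxHeartbeats 400000

namespace Pool.Agent.W975.SP

open Finset

/-- two monotone functions on a finite set of reals are often constant -/
theorem chain (P : Finset ℝ) (i g : ℝ → ℕ) (u u' : ℕ)
    (hi : ∀ x ∈ P, ∀ x' ∈ P, x ≤ x' → i x ≤ i x') (hg : ∀ x ∈ P, ∀ x' ∈ P, x ≤ x' → g x ≤ g x')
    (hiu : ∀ x ∈ P, i x ≤ u) (hgu : ∀ x ∈ P, g x ≤ u') :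
    P.card ≤ (u + u' + 1) +
      ((P ×ˢ P).filter (fun q => q.1 < q.2 ∧ i q.1 = i q.2 ∧ g q.1 = g q.2)).card := by
  classical
  have h1 : (P.filter (fun x => ∀ x' ∈ P, x' < x → ¬ (i x' = i x ∧ g x' = g x))).card ≤
      u + u' + 1 := by
    rw [← card_range (u + u' + 1)]
    apply card_le_card_of_injOn (fun x => i x + g x)
    · intro x hx
      have hx' := (mem_filter.1 (mem_coe.1 hx)).1
      have := hiu x hx'
      have := hgu x hx'
      simp only [coe_range, Set.mem_Iio]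
      omega
    · intro x hx x' hx' he
      rw [mem_coe, mem_filter] at hx hx'
      simp only at he
      rcases lt_trichotomy x x' with h | h | h
      · exfalso
        have a1 := hi x hx.1 x' hx'.1 h.le
        have a2 := hg x hx.1 x' hx'.1 h.le
        exact hx'.2 x hx.1 h ⟨by omega, by omega⟩
      · exact h
      · exfalso
        have a1 := hi x' hx'.1 x hx.1 h.le
        have a2 := hg x' hx'.1 x hx.1 h.le
        exact hx.2 x' hx'.1 h ⟨by omega, by omega⟩
  have h2 : (P.filter (fun x => ¬ ∀ x' ∈ P, x' < x → ¬ (i x' = i x ∧ g x' = g x))).card ≤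
      ((P ×ˢ P).filter (fun q => q.1 < q.2 ∧ i q.1 = i q.2 ∧ g q.1 = g q.2)).card := by
    refine le_trans (card_le_card ?_) (card_image_le (f := fun q : ℝ × ℝ => q.2))
    intro x hx
    rw [mem_filter] at hx
    obtain ⟨hx1, hx2⟩ := hx
    push Not at hx2
    obtain ⟨x', hx', h3, h4⟩ := hx2
    rw [mem_image]
    exact ⟨(x', x), mem_filter.2 ⟨mem_product.2 ⟨hx', hx1⟩, h3, h4⟩, rfl⟩
  have h3 := card_filter_add_card_filter_not (s := P)
    (fun x => ∀ x' ∈ P, x' < x → ¬ (i x' = i x ∧ g x' = g x))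
  omega

/-- the number of the smaller elements -/
noncomputable def rk (X : Finset ℝ) (x : ℝ) : ℕ := by
  classical
  exact (X.filter (fun x' => x' < x)).card

theorem rk_mono (X : Finset ℝ) {x x' : ℝ} (h : x ≤ x') : rk X x ≤ rk X x' := by
  unfold rk
  apply card_le_card
  intro z hz
  rw [mem_filter] at hz ⊢
  exact ⟨hz.1, lt_of_lt_of_le hz.2 h⟩

theorem rk_lt {X : Finset ℝ} {x x' : ℝ} (hx : x ∈ X) (h : x < x') : rk X x < rk X x' := by
  unfold rk
  apply card_lt_card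
  rw [ssubset_iff_of_subset]
  · exact ⟨x, mem_filter.2 ⟨hx, h⟩, fun h1 => lt_irrefl _ (mem_filter.1 h1).2⟩
  · intro z hz
    rw [mem_filter] at hz ⊢
    exact ⟨hz.1, hz.2.trans h⟩

theorem rk_inj {X : Finset ℝ} {x x' : ℝ} (hx : x ∈ X) (hx' : x' ∈ X) (h : rk X x = rk X x') :
    x = x' := by
  rcases lt_trichotomy x x' with h1 | h1 | h1
  · have := rk_lt hx h1
    omega
  · exact h1
  · have := rk_lt hx' h1
    omega

theorem rk_card {X : Finset ℝ} {x : ℝ} (hx : x ∈ X) : rk X x < X.card := by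
  unfold rk
  apply card_lt_card
  rw [ssubset_iff_of_subset (filter_subset _ _)]
  exact ⟨x, hx, fun h1 => lt_irrefl _ (mem_filter.1 h1).2⟩

theorem block_card (X : Finset ℝ) {B : ℕ} (hB : 0 < B) (c : ℕ) :
    (X.filter (fun x => rk X x / B = c)).card ≤ B := by
  have h : (Ico (c * B) ((c + 1) * B)).card = B := by
    rw [Nat.card_Ico, ← Nat.sub_mul]
    simp
  refine le_trans ?_ h.le
  apply card_le_card_of_injOn (fun x => rk X x)
  · intro x hx
    rw [mem_coe, mem_filter] at hx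
    have h1 := hx.2
    simp only [coe_Ico, Set.mem_Ico]
    rw [Nat.div_eq_iff hB] at h1
    constructor
    · exact h1.1
    · have := h1.2
      rw [add_mul, one_mul]
      omega
  · intro x hx x' hx' he
    rw [mem_coe, mem_filter] at hx hx'
    exact rk_inj hx.1 hx'.1 he

/-- the pairs of points in the same blocks -/
theorem pairs_card (X Y : Finset ℝ) {B B' : ℕ} (hB : 0 < B) (hB' : 0 < B') :
    (((X ×ˢ Y) ×ˢ (X ×ˢ Y)).filter (fun q : (ℝ × ℝ) × (ℝ × ℝ) => q.1.1 < q.2.1 ∧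
      rk X q.1.1 / B = rk X q.2.1 / B ∧ rk Y q.1.2 / B' = rk Y q.2.2 / B')).card ≤
      (X.card * Y.card) * (B * B') := by
  classical
  rw [card_eq_sum_card_fiberwise (f := fun q : (ℝ × ℝ) × (ℝ × ℝ) => q.2) (t := X ×ˢ Y)
    (fun q hq => (mem_product.1 (mem_filter.1 (mem_coe.1 hq)).1).2)]
  rw [← card_product, ← smul_eq_mul ((X ×ˢ Y).card)]
  apply sum_le_card_nsmul
  intro p _
  have h1 : ((X.filter (fun x => rk X x / B = rk X p.1 / B)) ×ˢ
      (Y.filter (fun y => rk Y y / B' = rk Y p.2 / B'))).card ≤ B * B' := by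
    rw [card_product]
    exact Nat.mul_le_mul (block_card X hB _) (block_card Y hB' _)
  refine le_trans ?_ h1
  apply card_le_card_of_injOn (fun q : (ℝ × ℝ) × (ℝ × ℝ) => q.1)
  · intro q hq
    rw [mem_coe, mem_filter, mem_filter, mem_product, mem_product] at hq
    obtain ⟨⟨⟨h2, h3⟩, h4, h5, h6⟩, h7⟩ := hq
    rw [h7] at h5 h6
    simp only [coe_product, Set.mem_prod, mem_coe, mem_filter]
    exact ⟨⟨h2.1, h5⟩, ⟨h2.2, h6⟩⟩
  · intro q hq q' hq' he
    rw [mem_coe, mem_filter] at hq hq'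
    exact Prod.ext he (hq.2.trans hq'.2.symm)

/-- one line -/
theorem one_line (X Y : Finset ℝ) (l : ℝ × ℝ) (hl : l.1 ≠ 0) (B B' : ℕ) :
    (X.filter (fun x => l.1 * x + l.2 ∈ Y)).card ≤
      ((X.card - 1) / B + (Y.card - 1) / B' + 1) +
      (((X.filter (fun x => l.1 * x + l.2 ∈ Y)) ×ˢ
        (X.filter (fun x => l.1 * x + l.2 ∈ Y))).filter (fun q : ℝ × ℝ => q.1 < q.2 ∧
          rk X q.1 / B = rk X q.2 / B ∧
          rk Y (l.1 * q.1 + l.2) / B' = rk Y (l.1 * q.2 + l.2) / B')).card := by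
  classical
  have hbX : ∀ x ∈ X, rk X x / B ≤ (X.card - 1) / B := by
    intro x hx
    apply Nat.div_le_div_right
    have := rk_card hx
    omega
  have hbY : ∀ y ∈ Y, rk Y y / B' ≤ (Y.card - 1) / B' := by
    intro x hx
    apply Nat.div_le_div_right
    have := rk_card hx
    omega
  rcases lt_or_gt_of_ne hl with h | h
  · have h1 := chain (X.filter (fun x => l.1 * x + l.2 ∈ Y)) (fun x => rk X x / B)
      (fun x => (Y.card - 1) / B' - rk Y (l.1 * x + l.2) / B') ((X.card - 1) / B)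
      ((Y.card - 1) / B')
      (fun x _ x' _ hxx => Nat.div_le_div_right (rk_mono X hxx))
      (fun x _ x' _ hxx => by
        apply Nat.sub_le_sub_left
        apply Nat.div_le_div_right
        apply rk_mono
        have := mul_le_mul_of_nonpos_left hxx h.le
        linarith)
      (fun x hx => hbX x (mem_filter.1 hx).1)
      (fun x _ => Nat.sub_le _ _)
    refine h1.trans ?_
    apply Nat.add_le_add_left
    apply card_le_card
    intro q hq
    rw [mem_filter, mem_product] at hq ⊢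
    obtain ⟨⟨h2, h3⟩, h4, h5, h6⟩ := hq
    refine ⟨⟨h2, h3⟩, h4, h5, ?_⟩
    have a1 := hbY _ (mem_filter.1 h2).2
    have a2 := hbY _ (mem_filter.1 h3).2
    omega
  · exact chain (X.filter (fun x => l.1 * x + l.2 ∈ Y)) (fun x => rk X x / B)
      (fun x => rk Y (l.1 * x + l.2) / B') ((X.card - 1) / B) ((Y.card - 1) / B')
      (fun x _ x' _ hxx => Nat.div_le_div_right (rk_mono X hxx))
      (fun x _ x' _ hxx => by
        apply Nat.div_le_div_right
        apply rk_mono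
        have := mul_le_mul_of_nonneg_left hxx h.le
        linarith)
      (fun x hx => hbX x (mem_filter.1 hx).1)
      (fun x hx => hbY _ (mem_filter.1 hx).2)

theorem main' (X Y : Finset ℝ) (L : Finset (ℝ × ℝ)) (k : ℕ) (hk : 2 ≤ k)
    (hL : ∀ l ∈ L, l.1 ≠ 0 ∧ k ≤ (X.filter (fun x => l.1 * x + l.2 ∈ Y)).card) :
    L.card * k ^ 3 ≤ 512 * X.card ^ 2 * Y.card ^ 2 := by
  classical
  rcases L.eq_empty_or_nonempty with hLe | ⟨l0, hl0⟩
  · rw [hLe]
    simp
  have hkX : k ≤ X.card := (hL l0 hl0).2.trans (card_filter_le _ _)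
  have hkY : k ≤ Y.card := by
    refine (hL l0 hl0).2.trans ?_
    apply card_le_card_of_injOn (fun x => l0.1 * x + l0.2)
    · intro x hx
      exact (mem_filter.1 (mem_coe.1 hx)).2
    · intro x _ x' _ he
      simp only at he
      have h1 : l0.1 * x = l0.1 * x' := by linarith
      exact mul_left_cancel₀ (hL l0 hl0).1 h1
  obtain ⟨n, hn⟩ : ∃ n, n = X.card := ⟨_, rfl⟩
  obtain ⟨m, hm⟩ : ∃ m, m = Y.card := ⟨_, rfl⟩
  obtain ⟨B, hB⟩ : ∃ B, B = 4 * n / k + 1 := ⟨_, rfl⟩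
  obtain ⟨B', hB'⟩ : ∃ B', B' = 4 * m / k + 1 := ⟨_, rfl⟩
  have hB0 : 0 < B := by
    rw [hB]
    exact Nat.succ_pos _
  have hB0' : 0 < B' := by
    rw [hB']
    exact Nat.succ_pos _
  have hk0 : 0 < k := by omega
  have e1 : 4 * n ≤ k * B := by
    have := Nat.lt_mul_div_succ (4 * n) hk0
    rw [hB]
    exact this.le
  have e1' : 4 * m ≤ k * B' := by
    have := Nat.lt_mul_div_succ (4 * m) hk0
    rw [hB']
    exact this.le
  have e2 : k * B ≤ 5 * n := by
    have := Nat.mul_div_le (4 * n) k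
    rw [hB, mul_add, mul_one]
    omega
  have e2' : k * B' ≤ 5 * m := by
    have := Nat.mul_div_le (4 * m) k
    rw [hB', mul_add, mul_one]
    omega
  have e3 : ∀ (N C : ℕ), 0 < C → 1 ≤ N → 4 * N ≤ k * C → 4 * ((N - 1) / C) + 1 ≤ k := by
    intro N C hC hN h
    have h1 : (N - 1) / C * C ≤ N - 1 := Nat.div_mul_le_self _ _
    by_contra hcon
    push Not at hcon
    have h2 : k ≤ 4 * ((N - 1) / C) := by omega
    have h3 : k * C ≤ 4 * ((N - 1) / C) * C := Nat.mul_le_mul_right _ h2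
    have h4 : 4 * ((N - 1) / C) * C = 4 * ((N - 1) / C * C) := by ring
    omega
  have f1 := e3 n B hB0 (by omega) e1
  have f2 := e3 m B' hB0' (by omega) e1'
  -- the pairs
  have hsum : ∑ l ∈ L, (((X.filter (fun x => l.1 * x + l.2 ∈ Y)) ×ˢ
        (X.filter (fun x => l.1 * x + l.2 ∈ Y))).filter (fun q : ℝ × ℝ => q.1 < q.2 ∧
          rk X q.1 / B = rk X q.2 / B ∧
          rk Y (l.1 * q.1 + l.2) / B' = rk Y (l.1 * q.2 + l.2) / B')).card ≤
      (n * m) * (B * B') := by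
    rw [hn, hm]
    refine le_trans ?_ (pairs_card X Y hB0 hB0')
    rw [← card_sigma]
    apply card_le_card_of_injOn (fun s : (Σ _ : ℝ × ℝ, ℝ × ℝ) =>
      ((s.2.1, s.1.1 * s.2.1 + s.1.2), (s.2.2, s.1.1 * s.2.2 + s.1.2)))
    · rintro ⟨l, q⟩ hs
      rw [mem_coe, mem_sigma, mem_filter, mem_product] at hs
      obtain ⟨h1, ⟨h2, h3⟩, h4⟩ := hs
      simp only at h1 h2 h3 h4
      rw [mem_filter] at h2 h3
      simp only [coe_filter, Set.mem_ofPred_eq, mem_product]
      exact ⟨⟨⟨h2.1, h2.2⟩, ⟨h3.1, h3.2⟩⟩, h4⟩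
    · rintro ⟨⟨a, b⟩, ⟨x, x'⟩⟩ hs ⟨⟨c, d⟩, ⟨z, z'⟩⟩ hs' he
      rw [mem_coe, mem_sigma, mem_filter] at hs
      have hxx : x < x' := hs.2.2.1
      simp only [Prod.mk.injEq] at he
      obtain ⟨⟨h1, h2⟩, h3, h4⟩ := he
      subst h1 h3
      have h5 : a * (x' - x) = c * (x' - x) := by linarith
      have h6 : a = c := mul_right_cancel₀ (sub_pos.2 hxx).ne' h5
      subst h6
      have h7 : b = d := by linarith
      subst h7
      rfl
  have hlow : ∀ l ∈ L, k ≤ ((n - 1) / B + (m - 1) / B' + 1) +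
      (((X.filter (fun x => l.1 * x + l.2 ∈ Y)) ×ˢ
        (X.filter (fun x => l.1 * x + l.2 ∈ Y))).filter (fun q : ℝ × ℝ => q.1 < q.2 ∧
          rk X q.1 / B = rk X q.2 / B ∧
          rk Y (l.1 * q.1 + l.2) / B' = rk Y (l.1 * q.2 + l.2) / B')).card := by
    intro l hl
    rw [hn, hm]
    exact (hL l hl).2.trans (one_line X Y l (hL l hl).1 B B')
  have hlow2 : L.card * k ≤ 4 * ((n * m) * (B * B')) := by
    calc L.card * k = ∑ l ∈ L, k := by rw [sum_const, smul_eq_mul]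
      _ ≤ ∑ l ∈ L, 4 * (((X.filter (fun x => l.1 * x + l.2 ∈ Y)) ×ˢ
        (X.filter (fun x => l.1 * x + l.2 ∈ Y))).filter (fun q : ℝ × ℝ => q.1 < q.2 ∧
          rk X q.1 / B = rk X q.2 / B ∧
          rk Y (l.1 * q.1 + l.2) / B' = rk Y (l.1 * q.2 + l.2) / B')).card := by
          apply sum_le_sum
          intro l hl
          have := hlow l hl
          omega
      _ ≤ 4 * ((n * m) * (B * B')) := by
          rw [← mul_sum]
          exact Nat.mul_le_mul_left _ hsum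
  rw [← hn, ← hm]
  calc L.card * k ^ 3 = (L.card * k) * k ^ 2 := by ring
    _ ≤ (4 * ((n * m) * (B * B'))) * k ^ 2 := Nat.mul_le_mul_right _ hlow2
    _ = 4 * (n * m) * ((k * B) * (k * B')) := by ring
    _ ≤ 4 * (n * m) * ((5 * n) * (5 * m)) :=
        Nat.mul_le_mul_left _ (Nat.mul_le_mul e2 e2')
    _ = 100 * (n ^ 2 * m ^ 2) := by ring
    _ ≤ 512 * (n ^ 2 * m ^ 2) := Nat.mul_le_mul_right _ (by norm_num)
    _ = 512 * n ^ 2 * m ^ 2 := by ring

/-- ST1 -/
theorem st1 : Pool.Agent.W798.SP.S_ST1 := by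
  intro X Y L k hk hL
  apply main' X Y L k hk
  intro l hl
  refine ⟨(hL l hl).1, (hL l hl).2.trans (le_of_eq ?_)⟩
  congr 1

end Pool.Agent.W975.SP
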